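import Pool.Agent.GEN.StmtsU

/-!
# Squad GEN, row KER (helper35)
-/

set_option autoImplicit false

namespace Pool.Agent.GEN.H35

open MvPolynomial Pool.Agent.GEN

theorem map_pw {σ A K : Type} [CommRing A] [CommRing K] (φ : A →+* K) (F : MvPolynomial σ A)
    (c : ℤ) (n : ℕ) : map φ (pw F c n) = pw (map φ F) c n := by
  unfold pw
  rw [map_pow]

theorem ker (hRMU : RmuStmt) (hSHJ : ShjStmt) (hPOW : PowStmt) (hVAN : VanStmt)
    (hINJ : InjStmt) (hAMP : AmpStmt) : KerStmt := by
  intro σ A K _ _ _ φ F h hext hφh hF T hT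
  classical
  obtain ⟨R, hR⟩ := hRMU σ A F
  obtain ⟨RK, hRK0⟩ : ∃ RK : Sm σ K →ₗ[K] Sm σ K, RK =
      (MvPolynomial.basisMonomials (SY σ) K).constr K fun m => map φ (R (monomial m 1)) :=
    ⟨_, rfl⟩
  have hRK1 : ∀ m, RK (monomial m 1) = map φ (R (monomial m 1)) := by
    intro m
    have h1 : (monomial m 1 : Sm σ K) = MvPolynomial.basisMonomials (SY σ) K m := by
      rw [MvPolynomial.coe_basisMonomials]
    rw [h1, hRK0, Module.Basis.constr_basis]
  have hRK : ∀ p : Sm σ A, RK (map φ p) = map φ (R p) := by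
    intro p
    induction p using MvPolynomial.induction_on' with
    | monomial m a =>
      have e1 : (monomial m a : Sm σ A) = a • monomial m 1 := by
        rw [smul_monomial, smul_eq_mul, mul_one]
      have e2 : (map φ (monomial m a : Sm σ A)) = φ a • monomial m 1 := by
        rw [map_monomial, smul_monomial, smul_eq_mul, mul_one]
      rw [e2, map_smul, hRK1, e1, map_smul, smul_eq_C_mul, smul_eq_C_mul, map_mul, map_C]
    | add p q hp hq => rw [map_add, map_add, map_add, map_add, hp, hq]
  -- iteration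
  have itR : ∀ (d : ℕ) (l : A) (w : MvPolynomial σ A) (p : Sm σ A),
      act l w (R^[d] p) = act l (F ^ d * w) p := by
    intro d
    induction d with
    | zero => intro l w p; rw [Function.iterate_zero, id_eq, pow_zero, one_mul]
    | succ d ih =>
      intro l w p
      rw [Function.iterate_succ_apply', hR, ih, pow_succ, mul_assoc]
  have itRK : ∀ (d : ℕ) (p : Sm σ A), RK^[d] (map φ p) = map φ (R^[d] p) := by
    intro d
    induction d with
    | zero => intro p; rfl
    | succ d ih =>
      intro p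
      rw [Function.iterate_succ_apply', ih, hRK, Function.iterate_succ_apply']
  obtain ⟨d, hd⟩ : ∃ d, d = T.totalDegree := ⟨_, rfl⟩
  have hq : ∀ m : SY σ →₀ ℕ, ∃ q : Sm σ A, m.degree ≤ d → (∀ m' ∈ q.support, dp m' = 0) ∧
      ∀ n : ℕ, d ≤ n → act (n : A) (F ^ n) (monomial m 1) = act (n : A) (pw F (-d) n) q := by
    intro m
    by_cases hm : m.degree ≤ d
    · obtain ⟨q, hq⟩ := hPOW σ A F m d hm
      exact ⟨q, fun _ => hq⟩
    · exact ⟨0, fun h => absurd h hm⟩
  choose q hq using hq
  have hdeg : ∀ m ∈ T.support, m.degree ≤ d := by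
    intro m hm
    rw [hd]
    exact le_totalDegree hm
  have hpw : ∀ n : ℕ, d ≤ n → F ^ d * pw F (-d) n = F ^ n := by
    intro n hn
    unfold pw
    rw [← pow_add]
    congr 1
    omega
  have hu : ∀ m ∈ T.support, R^[d] (monomial m 1) - q m ∈ UU F (-d) := by
    intro m hm
    refine ⟨d, fun n hn => ?_⟩
    rw [map_sub, itR, hpw n hn, (hq m (hdeg m hm)).2 n hn, sub_self]
  -- decomposition of `RK ^ d T`
  obtain ⟨Q, hQ⟩ : ∃ Q : Sm σ K, Q = ∑ m ∈ T.support, coeff m T • map φ (q m) := ⟨_, rfl⟩
  have hTs : T = ∑ m ∈ T.support, coeff m T • (monomial m 1 : Sm σ K) := by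
    conv_lhs => rw [T.as_sum]
    apply Finset.sum_congr rfl
    intro m _
    rw [smul_monomial, smul_eq_mul, mul_one]
  have hdec : RK^[d] T = (∑ m ∈ T.support, coeff m T • map φ (R^[d] (monomial m 1) - q m)) +
      Q := by
    have e1 : RK^[d] T = ∑ m ∈ T.support, coeff m T • map φ (R^[d] (monomial m 1)) := by
      conv_lhs => rw [hTs]
      rw [← Module.End.pow_apply, map_sum]
      apply Finset.sum_congr rfl
      intro m _
      rw [map_smul, Module.End.pow_apply, ← itRK, map_monomial, map_one φ]
    rw [e1, hQ, ← Finset.sum_add_distrib]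
    apply Finset.sum_congr rfl
    intro m _
    rw [map_sub, smul_sub, sub_add_cancel]
  have hQ0 : Q = 0 := by
    apply hVAN σ K (map φ F) hF (-d) Q
    · intro m' hm'
      rw [hQ] at hm'
      have h1 := MvPolynomial.support_sum hm'
      rw [Finset.mem_biUnion] at h1
      obtain ⟨m, hm, h2⟩ := h1
      have h3 := MvPolynomial.support_smul h2
      exact (hq m (hdeg m hm)).1 m' (MvPolynomial.support_map_subset _ _ h3)
    · obtain ⟨n₀, hn₀⟩ := hT
      refine ⟨max n₀ d, fun n hn => ?_⟩
      have hn1 : n₀ ≤ n := le_trans (le_max_left _ _) hn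
      have hn2 : d ≤ n := le_trans (le_max_right _ _) hn
      have h0 := hn₀ n hn1
      have e1 : pw (map φ F) 0 n = (map φ F) ^ n := by
        unfold pw
        congr 1
      rw [e1] at h0
      rw [hQ, map_sum]
      rw [hTs, map_sum] at h0
      rw [← h0]
      apply Finset.sum_congr rfl
      intro m hm
      rw [map_smul, map_smul]
      congr 1
      have e2 := hAMP σ A K φ (n : A) (pw F (-d) n) (q m)
      have e3 := hAMP σ A K φ (n : A) (F ^ n) (monomial m 1)
      rw [map_natCast, map_pw] at e2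
      rw [map_natCast, map_pow, map_monomial, map_one φ] at e3
      rw [← e2, ← e3, (hq m (hdeg m hm)).2 n hn2]
  have hbase : RK^[d] T ∈ spn φ (UU F (-d)) := by
    rw [hdec, hQ0, add_zero]
    apply Submodule.sum_mem
    intro m hm
    apply Submodule.smul_mem
    exact Submodule.subset_span ⟨_, hu m hm, rfl⟩
  have hind : ∀ i : ℕ, i ≤ d → RK^[d - i] T ∈ spn φ (UU F (-d + i)) := by
    intro i
    induction i with
    | zero =>
      intro _
      rw [Nat.cast_zero, add_zero, Nat.sub_zero]
      exact hbase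
    | succ i ih =>
      intro hi
      have h1 := ih (by omega)
      have e1 : d - i = (d - (i + 1)) + 1 := by omega
      rw [e1, Function.iterate_succ_apply'] at h1
      have h2 := hINJ σ A K φ F h (-d + i) (hSHJ σ A F h _ hext) hφh R hR RK hRK _ h1
      rw [Nat.cast_succ, ← add_assoc]
      exact h2
  have hfin := hind d le_rfl
  rw [Nat.sub_self, neg_add_cancel] at hfin
  exact hfin

end Pool.Agent.GEN.H35
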