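import Pool.Agent.GEN.StmtsPT

/-!
# Squad GEN, row PIP (helper35)
-/

set_option autoImplicit false

namespace Pool.Agent.GEN.PT.H35

open Finset Pool.Agent.GEN.PT
open scoped Classical

theorem res_coeff {Λ A : Type} [CommRing A] (T : Finset Λ) (p : MvPolynomial Λ A) (m : Λ →₀ ℕ) :
    (res T p).coeff m = if m.support ⊆ T then p.coeff m else 0 := by
  induction p using MvPolynomial.induction_on' with
  | monomial u c =>
    unfold res
    rw [MvPolynomial.aeval_monomial, MvPolynomial.coeff_monomial]
    by_cases h : u.support ⊆ T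
    · have e1 : (u.prod fun ρ k => (if ρ ∈ T then (MvPolynomial.X ρ : MvPolynomial Λ A) else 0) ^ k) =
          u.prod fun ρ k => (MvPolynomial.X ρ : MvPolynomial Λ A) ^ k := by
        apply Finset.prod_congr rfl
        intro ρ hρ
        show (if ρ ∈ T then (MvPolynomial.X ρ : MvPolynomial Λ A) else 0) ^ u ρ = _
        rw [if_pos (h hρ)]
      rw [e1, MvPolynomial.algebraMap_eq, ← MvPolynomial.monomial_eq, MvPolynomial.coeff_monomial]
      by_cases hm : u = m
      · subst hm
        rw [if_pos rfl, if_pos h]
      · rw [if_neg hm]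
        split_ifs <;> rfl
    · rw [Finset.not_subset] at h
      obtain ⟨ρ, h1, h2⟩ := h
      have e1 : (u.prod fun ρ k =>
          (if ρ ∈ T then (MvPolynomial.X ρ : MvPolynomial Λ A) else 0) ^ k) = 0 := by
        apply Finset.prod_eq_zero h1
        show (if ρ ∈ T then (MvPolynomial.X ρ : MvPolynomial Λ A) else 0) ^ u ρ = _
        rw [if_neg h2, zero_pow (Finsupp.mem_support_iff.1 h1)]
      rw [e1, mul_zero, MvPolynomial.coeff_zero]
      by_cases hm : u = m
      · subst hm
        rw [if_neg]
        intro h3
        exact h2 (h3 h1)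
      · rw [if_neg hm]
        split_ifs <;> rfl
  | add p q hp hq =>
    rw [map_add, MvPolynomial.coeff_add, MvPolynomial.coeff_add, hp, hq]
    split_ifs
    · rfl
    · rw [add_zero]

theorem pip : PipStmt := by
  intro Λ A _ _ F
  have hsub : ∀ m : Λ →₀ ℕ, m.support ⊆ clF F m := by
    intro m ρ hρ
    unfold clF
    rw [Finset.mem_filter]
    exact ⟨Finset.mem_univ _, fun T _ hT => hT hρ⟩
  refine ⟨?_, res_coeff, ?_, ?_, ?_, ?_⟩
  · intro T T' p
    ext m
    rw [res_coeff, res_coeff, res_coeff]
    by_cases h1 : m.support ⊆ T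
    · by_cases h2 : m.support ⊆ T'
      · rw [if_pos h1, if_pos h2, if_pos (Finset.subset_inter h1 h2)]
      · rw [if_pos h1, if_neg h2, if_neg fun h => h2 (h.trans Finset.inter_subset_right)]
    · rw [if_neg h1, if_neg fun h => h1 (h.trans Finset.inter_subset_left)]
  · intro T p m
    unfold prj
    rw [MvPolynomial.coeff_sum]
    simp only [MvPolynomial.coeff_monomial]
    by_cases h : clF F m = T
    · rw [if_pos h]
      by_cases hm : m ∈ p.support
      · rw [Finset.sum_eq_single m]
        · rw [if_pos rfl]
        · intro b _ hb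
          rw [if_neg hb]
        · intro h1
          exact absurd (Finset.mem_filter.2 ⟨hm, h⟩) h1
      · rw [Finset.sum_eq_zero]
        · rw [MvPolynomial.notMem_support_iff.1 hm]
        · intro b hb
          rw [if_neg]
          rintro rfl
          exact hm (Finset.mem_filter.1 hb).1
    · rw [if_neg h]
      apply Finset.sum_eq_zero
      intro b hb
      rw [if_neg]
      rintro rfl
      exact h (Finset.mem_filter.1 hb).2
  · intro hF m T hT hmT
    refine ⟨?_, ?_, hsub m⟩
    · have hne : (F.filter fun T => m.support ⊆ T).Nonempty := ⟨T, Finset.mem_filter.2 ⟨hT, hmT⟩⟩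
      have e1 : clF F m = (F.filter fun T => m.support ⊆ T).inf' hne id := by
        ext ρ
        have h1 : ρ ∈ (F.filter fun T => m.support ⊆ T).inf' hne id ↔
            {ρ} ≤ (F.filter fun T => m.support ⊆ T).inf' hne id := by
          rw [Finset.le_iff_subset, Finset.singleton_subset_iff]
        rw [h1, Finset.le_inf'_iff]
        unfold clF
        simp only [Finset.mem_filter, Finset.mem_univ, true_and, id_eq, Finset.le_iff_subset,
          Finset.singleton_subset_iff, and_imp]
      rw [e1]
      exact Finset.inf'_mem (F : Set (Finset Λ)) (fun x hx y hy => hF x hx y hy) _ _ id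
        (fun i hi => (Finset.mem_filter.1 hi).1)
    · intro ρ hρ
      unfold clF at hρ
      exact (Finset.mem_filter.1 hρ).2 T hT hmT
  · intro _ m _
    exact hsub m
  · intro p hp m hm T hT h
    have h1 := res_coeff T p m
    rw [hp T hT, if_pos h, MvPolynomial.coeff_zero] at h1
    rw [MvPolynomial.mem_support_iff] at hm
    exact hm h1.symm

end Pool.Agent.GEN.PT.H35
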