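import Pool.Agent.GEN.StmtsPT

/-!
# Squad GEN, row RGA (helper35)
-/

set_option autoImplicit false

namespace Pool.Agent.GEN.PT.H35

open Finset Pool.Agent.GEN.PT
open scoped Classical

theorem rga_aux {τ B : Type} [Fintype τ] [Nonempty τ] [CommRing B] (I : Ideal B) (c : B)
    (g : MvPolynomial τ B)
    (h : ((∏ ρ : τ, MvPolynomial.X ρ) - MvPolynomial.C c) * g ∈
      Ideal.map (MvPolynomial.C : B →+* MvPolynomial τ B) I) :
    g ∈ Ideal.map (MvPolynomial.C : B →+* MvPolynomial τ B) I := by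
  rw [MvPolynomial.mem_map_C_iff] at h ⊢
  obtain ⟨e, he⟩ : ∃ e : τ →₀ ℕ, e = ∑ ρ : τ, Finsupp.single ρ 1 := ⟨_, rfl⟩
  have hy : (∏ ρ : τ, (MvPolynomial.X ρ : MvPolynomial τ B)) = MvPolynomial.monomial e 1 := by
    rw [he, MvPolynomial.monomial_sum_one]
    rfl
  have he1 : ∀ ρ, e ρ = 1 := by
    intro ρ
    rw [he, Finsupp.finset_sum_apply]
    simp [Finsupp.single_apply]
  have step : ∀ m, MvPolynomial.coeff (e + m) g ∈ I → MvPolynomial.coeff m g ∈ I := by
    intro m hm
    have h1 := h (e + m)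
    rw [sub_mul, MvPolynomial.coeff_sub, hy, MvPolynomial.coeff_monomial_mul, one_mul,
      MvPolynomial.coeff_C_mul] at h1
    have h2 := I.add_mem h1 (I.mul_mem_left c hm)
    rwa [sub_add_cancel] at h2
  have down : ∀ (k : ℕ) (m : τ →₀ ℕ), MvPolynomial.coeff (m + k • e) g ∈ I → MvPolynomial.coeff m g ∈ I := by
    intro k
    induction k with
    | zero =>
      intro m hm
      rwa [zero_smul, add_zero] at hm
    | succ k ih =>
      intro m hm
      apply step
      apply ih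
      rw [show e + m + k • e = m + (k + 1) • e by rw [succ_nsmul]; abel]
      exact hm
  intro m
  apply down (g.totalDegree + 1) m
  have h0 : MvPolynomial.coeff (m + (g.totalDegree + 1) • e) g = 0 := by
    by_contra hne
    have h1 := MvPolynomial.le_totalDegree (MvPolynomial.mem_support_iff.2 hne)
    obtain ⟨ρ⟩ := (inferInstance : Nonempty τ)
    have h2 : (m + (g.totalDegree + 1) • e) ρ ≤
        (m + (g.totalDegree + 1) • e).sum fun _ k => k := by
      by_cases h3 : (m + (g.totalDegree + 1) • e) ρ = 0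
      · rw [h3]
        exact Nat.zero_le _
      · exact Finset.single_le_sum (f := fun ρ => (m + (g.totalDegree + 1) • e) ρ)
          (fun _ _ => Nat.zero_le _) (Finsupp.mem_support_iff.2 h3)
    rw [Finsupp.add_apply, Finsupp.smul_apply, he1 ρ, smul_eq_mul, mul_one] at h2
    omega
  rw [h0]
  exact I.zero_mem

theorem rga : RgaStmt := by
  intro Λ A _ _ s X G hs hG g hg
  have : Nonempty {x // x ∈ s} := hs.to_subtype
  obtain ⟨φ, hφ⟩ : ∃ φ : MvPolynomial Λ A ≃ₐ[A]
      MvPolynomial {x // x ∈ s} (MvPolynomial {x // ¬ x ∈ s} A),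
      φ = (MvPolynomial.renameEquiv A (Equiv.sumCompl (fun x => x ∈ s)).symm).trans
        (MvPolynomial.sumAlgEquiv A {x // x ∈ s} {x // ¬ x ∈ s}) := ⟨_, rfl⟩
  have h1 : ∀ ρ : {x // x ∈ s}, φ (MvPolynomial.X ρ.1) = MvPolynomial.X ρ := by
    intro ρ
    rw [hφ, AlgEquiv.trans_apply, MvPolynomial.renameEquiv_apply, MvPolynomial.rename_X,
      Equiv.sumCompl_symm_apply_of_pos ρ.2, MvPolynomial.sumAlgEquiv_X_inl]
  have h2 : ∀ ρ : {x // ¬ x ∈ s}, φ (MvPolynomial.X ρ.1) = MvPolynomial.C (MvPolynomial.X ρ) := by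
    intro ρ
    rw [hφ, AlgEquiv.trans_apply, MvPolynomial.renameEquiv_apply, MvPolynomial.rename_X,
      Equiv.sumCompl_symm_apply_of_neg ρ.2, MvPolynomial.sumAlgEquiv_X_inr]
  have h3 : ∀ a : A, φ (MvPolynomial.C a) = MvPolynomial.C (MvPolynomial.C a) := by
    intro a
    exact φ.commutes a
  have h4 : φ (∏ ρ ∈ s, MvPolynomial.X ρ) = ∏ ρ : {x // x ∈ s}, MvPolynomial.X ρ := by
    rw [map_prod, ← Finset.prod_coe_sort]
    exact Finset.prod_congr rfl fun ρ _ => h1 ρ
  have h5 : ∀ q : MvPolynomial {x // ¬ x ∈ s} A,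
      φ (MvPolynomial.rename Subtype.val q) = MvPolynomial.C q := by
    intro q
    induction q using MvPolynomial.induction_on with
    | C a => rw [MvPolynomial.rename_C, h3]
    | add p q hp hq => rw [map_add, map_add, map_add, hp, hq]
    | mul_X p ρ hp => rw [map_mul, map_mul, map_mul, hp, MvPolynomial.rename_X, h2]
  have h6 : ∀ p ∈ G, ∃ q, φ p = MvPolynomial.C q := by
    intro p hp
    obtain ⟨q, hq⟩ := MvPolynomial.exists_rename_eq_of_vars_subset_range p
      (Subtype.val : {x // ¬ x ∈ s} → Λ) Subtype.val_injective (by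
        intro ρ hρ
        rw [Finset.mem_coe, MvPolynomial.mem_vars_iff_mem_support] at hρ
        obtain ⟨m, hm, hρm⟩ := hρ
        rw [Subtype.range_val]
        intro hρs
        exact (Finsupp.mem_support_iff.1 hρm) (hG p hp m hm ρ hρs))
    exact ⟨q, by rw [← hq, h5]⟩
  obtain ⟨S, hS⟩ : ∃ S : Set (MvPolynomial {x // ¬ x ∈ s} A),
      S = {q | MvPolynomial.C q ∈ φ '' G} := ⟨_, rfl⟩
  have h7 : Ideal.map φ (Ideal.span G) = Ideal.map
      (MvPolynomial.C : MvPolynomial {x // ¬ x ∈ s} A →+*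
        MvPolynomial {x // x ∈ s} (MvPolynomial {x // ¬ x ∈ s} A)) (Ideal.span S) := by
    rw [Ideal.map_span, Ideal.map_span]
    congr 1
    ext q
    constructor
    · rintro ⟨p, hp, rfl⟩
      obtain ⟨q, hq⟩ := h6 p hp
      refine ⟨q, ?_, hq.symm⟩
      rw [hS]
      exact ⟨p, hp, hq⟩
    · rintro ⟨q, hq, rfl⟩
      rw [hS] at hq
      exact hq
  have h8 : φ g ∈ Ideal.map φ (Ideal.span G) := by
    rw [h7]
    apply rga_aux _ (MvPolynomial.C X)
    rw [← h7, ← h4, ← h3, ← map_sub, ← map_mul]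
    exact Ideal.mem_map_of_mem _ hg
  obtain ⟨x, hx, hxg⟩ := (Ideal.mem_map_of_equiv φ _).1 h8
  rw [← φ.injective hxg]
  exact hx

end Pool.Agent.GEN.PT.H35
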