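import Pool.Agent.GEN.StmtsU

/-!
# Squad GEN, row RMU (helper35)
-/

set_option autoImplicit false

namespace Pool.Agent.GEN.H35

open MvPolynomial Pool.Agent.GEN

variable {σ A : Type} [CommRing A]

/-- the words -/
theorem ex_word (hS : SycStmt) (v : List σ) : ∃ Λ : Sm σ A →ₗ[A] Sm σ A,
    ∀ (l : A) (w : MvPolynomial σ A) (p : Sm σ A),
      act l w (Λ p) = dWordR v (act l w p) := by
  induction v with
  | nil => exact ⟨LinearMap.id, fun l w p => rfl⟩
  | cons i v ih =>
    obtain ⟨Λ, hΛ⟩ := ih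
    exact ⟨(Lop (some (Sum.inr i))).comp Λ, fun l w p => by
      rw [LinearMap.comp_apply, (hS σ A l w (Λ p)).2.2.1, hΛ]
      rfl⟩

/-- multiplication with polynomials in `x` -/
theorem ex_mul (hS : SycStmt) (G : MvPolynomial σ A) : ∃ Λ : Sm σ A →ₗ[A] Sm σ A,
    ∀ (l : A) (w : MvPolynomial σ A) (p : Sm σ A), act l w (Λ p) = G * act l w p := by
  induction G using MvPolynomial.induction_on with
  | C a => exact ⟨a • LinearMap.id, fun l w p => by
      rw [LinearMap.smul_apply, LinearMap.id_apply, map_smul, MvPolynomial.smul_eq_C_mul]⟩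
  | add G G' hG hG' =>
    obtain ⟨Λ, hΛ⟩ := hG
    obtain ⟨Λ', hΛ'⟩ := hG'
    exact ⟨Λ + Λ', fun l w p => by
      rw [LinearMap.add_apply, map_add, hΛ, hΛ', add_mul]⟩
  | mul_X G i hG =>
    obtain ⟨Λ, hΛ⟩ := hG
    exact ⟨Λ.comp (Lop (some (Sum.inl i))), fun l w p => by
      rw [LinearMap.comp_apply, hΛ, (hS σ A l w p).2.1 i, mul_assoc]⟩

/-- powers of `s` -/
theorem ex_pow (hS : SycStmt) (k : ℕ) : ∃ Λ : Sm σ A →ₗ[A] Sm σ A,
    ∀ (l : A) (w : MvPolynomial σ A) (p : Sm σ A), act l w (Λ p) = C (l ^ k) * act l w p := by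
  induction k with
  | zero => exact ⟨LinearMap.id, fun l w p => by simp⟩
  | succ k ih =>
    obtain ⟨Λ, hΛ⟩ := ih
    exact ⟨(Lop none).comp Λ, fun l w p => by
      rw [LinearMap.comp_apply, (hS σ A l w (Λ p)).1, hΛ, pow_succ, C_mul]
      ring⟩

theorem act_ren (hS : SycStmt) (l : A) (w : MvPolynomial σ A) (F : MvPolynomial σ A) :
    act l w (rename (fun i => some (Sum.inl i)) F) = F * w := by
  induction F using MvPolynomial.induction_on with
  | C a =>
    have e : (C a : Sm σ A) = a • 1 := by rw [MvPolynomial.smul_eq_C_mul, mul_one]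
    rw [rename_C, e, map_smul, (hS σ A l w 0).2.2.2.2.2, MvPolynomial.smul_eq_C_mul]
  | add F G hF hG => rw [map_add, map_add, hF, hG, add_mul]
  | mul_X F i hF =>
    rw [map_mul, rename_X, mul_comm]
    have h1 : (X (some (Sum.inl i)) * rename (fun i => some (Sum.inl i)) F : Sm σ A) =
        Lop (some (Sum.inl i)) (rename (fun i => some (Sum.inl i)) F) := rfl
    rw [h1, (hS σ A l w _).2.1 i, hF]
    ring

theorem rmu (hS : SycStmt) : RmuStmt := by
  intro σ A _ F
  have key : ∀ m : SY σ →₀ ℕ, ∃ Λ : Sm σ A →ₗ[A] Sm σ A,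
      ∀ (l : A) (w : MvPolynomial σ A) (p : Sm σ A),
        act l w (Λ p) = C (l ^ m none) * monomial (xp m) (1 : A) * dE (dp m) (act l w p) := by
    intro m
    obtain ⟨Λ1, h1⟩ := ex_word (A := A) hS (Finsupp.toMultiset (dp m)).toList
    obtain ⟨Λ2, h2⟩ := ex_mul hS (monomial (xp m) (1 : A))
    obtain ⟨Λ3, h3⟩ := ex_pow (σ := σ) (A := A) hS (m none)
    refine ⟨Λ3.comp (Λ2.comp Λ1), fun l w p => ?_⟩
    rw [LinearMap.comp_apply, LinearMap.comp_apply, h3, h2, h1, mul_assoc]
    rfl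
  choose Λ hΛ using key
  refine ⟨(MvPolynomial.basisMonomials (SY σ) A).constr A fun m =>
    Λ m (rename (fun i => some (Sum.inl i)) F), fun l w p => ?_⟩
  have h1 : (act l w).comp ((MvPolynomial.basisMonomials (SY σ) A).constr A fun m =>
      Λ m (rename (fun i => some (Sum.inl i)) F)) = act l (F * w) := by
    apply (MvPolynomial.basisMonomials (SY σ) A).ext
    intro m
    rw [LinearMap.comp_apply, Module.Basis.constr_basis, hΛ, act_ren hS,
      MvPolynomial.coe_basisMonomials, act_monomial, C_1, one_mul]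
  exact LinearMap.congr_fun h1 p

end Pool.Agent.GEN.H35
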